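import Mathlib
import Pool.Agent.H83.FilterTop
import Pool.Agent.H83.Rec

set_option autoImplicit false

namespace Pool.Agent.Results.MP_23a291_gt.Urysohn

open Set Filter Topology

section
variable {X : Type} [TopologicalSpace X]

/-- A sequence of open covers. -/
def Covers (𝒰 : ℕ → Set (Set X)) : Prop := ∀ n, (∀ U ∈ 𝒰 n, IsOpen U) ∧ ⋃₀ 𝒰 n = univ

/-- A selection of finite subfamilies. -/
def Sel (𝒰 𝒱 : ℕ → Set (Set X)) : Prop := ∀ n, 𝒱 n ⊆ 𝒰 n ∧ (𝒱 n).Finite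

/-- Almost Scheepers. -/
def AS (X : Type) [TopologicalSpace X] : Prop :=
  ∀ 𝒰 : ℕ → Set (Set X), Covers 𝒰 → ∃ 𝒱, Sel 𝒰 𝒱 ∧
    ∀ F : Set X, F.Finite → {n | F ⊆ closure (⋃₀ 𝒱 n)}.Infinite

/-- Weakly Scheepers. -/
def WS (X : Type) [TopologicalSpace X] : Prop :=
  ∀ 𝒰 : ℕ → Set (Set X), Covers 𝒰 → ∃ 𝒱, Sel 𝒰 𝒱 ∧
    ∀ ℱ : Set (Set X), ℱ.Finite → (∀ U ∈ ℱ, IsOpen U ∧ U.Nonempty) →
      {n | ∀ U ∈ ℱ, (U ∩ ⋃₀ 𝒱 n).Nonempty}.Infinite

/-- Weakly Scheepers in the sense of Kocinac. -/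
def WSK (X : Type) [TopologicalSpace X] : Prop :=
  ∀ 𝒰 : ℕ → Set (Set X), Covers 𝒰 → ∃ (Y : Set X) (𝒱 : ℕ → Set (Set X)), Dense Y ∧ Sel 𝒰 𝒱 ∧
    ∀ F ⊆ Y, F.Finite → {n | F ⊆ ⋃₀ 𝒱 n}.Infinite

end

open H83.FilterTop Cardinal

theorem exists_level : ∃ l : EReal → ℕ, ∀ U : Set EReal, IsOpen U → U.Nonempty → ∀ n,
    ¬ (U ∩ {x | n ≤ l x}).Countable := by
  classical
  obtain ⟨f, hf, hinj⟩ := H83.Rec.sdr (ι := ℕ × {p : ℚ × ℚ // p.1 < p.2} × ℝ) (α := ℝ) 𝔠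
    (by
      simp only [mk_prod, lift_id, mk_real, mk_nat]
      exact mul_le_of_le aleph0_le_continuum aleph0_le_continuum (mul_le_of_le aleph0_le_continuum
        (mk_le_aleph0.trans aleph0_le_continuum) le_rfl))
    (fun i => Ioo (i.2.1.1.1 : ℝ) i.2.1.1.2)
    (fun i => by rw [mk_Ioo_real (by exact_mod_cast i.2.1.2)])
  refine ⟨fun x => if h : ∃ i, ((f i : ℝ) : EReal) = x then h.choose.1 else 0,
    fun U hU hne n hc => ?_⟩
  obtain ⟨r, hr⟩ := EReal.denseRange_ratCast.exists_mem_open hU hne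
  obtain ⟨a, b, -, hab, hsub⟩ : ∃ a b : ℚ, True ∧ a < b ∧
      ∀ x ∈ Ioo (a : ℝ) b, (x : EReal) ∈ U := by
    obtain ⟨c, d, hr', h⟩ := mem_nhds_iff_exists_Ioo_subset.1
      ((hU.preimage continuous_coe_real_ereal).mem_nhds hr)
    obtain ⟨b, h1, h2⟩ := exists_rat_btwn hr'.2
    exact ⟨r, b, trivial, by exact_mod_cast h1, fun x hx => h ⟨hr'.1.trans hx.1, hx.2.trans h2⟩⟩
  refine not_countable_real ((hc.preimage_of_injOn
    (f := fun t : ℝ => ((f (n, ⟨(a, b), hab⟩, t) : ℝ) : EReal)) fun s _ t _ e => ?_).mono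
      fun t _ => mem_preimage.2 (mem_inter (hsub _ (hf (n, ⟨(a, b), hab⟩, t))) ?_))
  · simpa using hinj (EReal.coe_injective e)
  · have h : ∃ i, ((f i : ℝ) : EReal) = f (n, ⟨(a, b), hab⟩, t) := ⟨_, rfl⟩
    simp only [mem_setOf_eq, dif_pos h]
    rw [hinj (EReal.coe_injective h.choose_spec)]

/-- the filter generated by the upper levels and the co-countable sets -/
def lev (l : EReal → ℕ) : Filter EReal where
  sets := {S | ∃ n, ({x | n ≤ l x} \ S).Countable}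
  univ_sets := ⟨0, by simp⟩
  sets_of_superset := fun ⟨n, h⟩ hST => ⟨n, h.mono (diff_subset_diff_right hST)⟩
  inter_sets := fun ⟨m, h⟩ ⟨n, h'⟩ => ⟨max m n, (h.union h').mono fun x hx => by
    simp only [mem_diff, mem_setOf_eq, max_le_iff, mem_inter_iff, mem_union] at hx ⊢
    tauto⟩

theorem result : ∃ (X : Type) (_ : TopologicalSpace X), T25Space X ∧ AS X ∧ WS X ∧ ¬ WSK X := by
  obtain ⟨l, hl⟩ := exists_level
  have hpos : Pos (lev l) := by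
    rintro U hU hne S ⟨n, hn⟩
    by_contra h
    exact hl U hU hne n (hn.mono fun x hx => mem_diff_of_mem hx.2 fun hS => h ⟨x, hx.1, hS⟩)
  have key : ∀ 𝒰 : ℕ → Set (Set (Ref EReal (lev l))), Covers 𝒰 →
      ∃ 𝒱, Sel 𝒰 𝒱 ∧ ∀ n, Dense (⋃₀ 𝒱 n) := fun 𝒰 h => by
    choose 𝒱 h1 h2 h3 using fun n => exists_finite_dense hpos (𝒰 n) (h n).1 (h n).2
    exact ⟨𝒱, fun n => ⟨h1 n, h2 n⟩, h3⟩
  refine ⟨Ref EReal (lev l), inferInstance, inferInstance, fun 𝒰 h => ?_, fun 𝒰 h => ?_,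
    fun h => ?_⟩
  · obtain ⟨𝒱, h1, h2⟩ := key 𝒰 h
    exact ⟨𝒱, h1, fun F _ => infinite_univ.mono fun n _ x _ => h2 n x⟩
  · obtain ⟨𝒱, h1, h2⟩ := key 𝒰 h
    exact ⟨𝒱, h1, fun ℱ _ hF => infinite_univ.mono fun n _ U hU =>
      (h2 n).inter_open_nonempty U (hF U hU).1 (hF U hU).2⟩
  · obtain ⟨Y, 𝒱, hY, hsel, hF⟩ := h
      (fun n => range fun z => toZ ⁻¹' insert z {x | n ≤ l x}) fun n => ⟨by
        rintro _ ⟨z, rfl⟩
        exact isOpen_of_mem ⟨n, countable_empty.mono fun x hx => hx.2 (Or.inr hx.1)⟩,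
        eq_univ_of_forall fun x => ⟨_, ⟨toZ x, rfl⟩, Or.inl rfl⟩⟩
    have hc : ∀ n, ({x | l x < n} ∩ toZ '' ⋃₀ 𝒱 n).Countable := fun n => by
      refine ((hsel n).2.countable.biUnion (t := fun V _ => {x | l x < n} ∩ toZ '' V)
        fun V hV => ?_).mono ?_
      · obtain ⟨z, rfl⟩ := (hsel n).1 hV
        refine (countable_singleton z).mono ?_
        rintro _ ⟨h1, x, h | h, rfl⟩
        · exact h
        · exact absurd (show l _ < n from h1) (not_lt.2 h)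
      · rintro _ ⟨h1, x, ⟨V, hV, hx⟩, rfl⟩
        exact mem_biUnion hV ⟨h1, x, hx, rfl⟩
    obtain ⟨y, hy, hyS⟩ := meets_of_dense hpos hY
      (S := (⋃ n, {x | l x < n} ∩ toZ '' ⋃₀ 𝒱 n)ᶜ)
      ⟨0, (countable_iUnion hc).mono fun x hx => not_not.1 hx.2⟩
    refine hF {y} (singleton_subset_iff.2 hy) (finite_singleton y)
      ((finite_le_nat (l (toZ y))).subset fun n hn => ?_)
    by_contra hlt
    exact hyS (mem_iUnion.2 ⟨n, show l _ < n from not_le.1 hlt, y, hn rfl, rfl⟩)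

end Pool.Agent.Results.MP_23a291_gt.Urysohn
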